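import Pool.Agent.X305.WM.Pair

/-!
# Local Euler factors of motives and common poles

Let `M` be a Chow motive over `ℚ`, `i` an integer and `p` a prime number (`q = p`), and for `l ≠ p` let
`W l` be the part of `V^i_l(M)` (coefficients extended to an algebraic closure `Ω l`) on which the finite
quotient of the inertia group acts trivially (Weil-Deligne representation), with a geometric Frobenius element
`F` and the monodromy operator `N`, and `W' l` the corresponding part of the realisation in degree `-i` of the
dual motive `M'`. Then `W' l` is dual to `W l` (`DualPair`), the inertia invariants are the kernel of `N`, and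
the Euler polynomial `P^i_(p,l)(M, T)` is the reciprocal polynomial of `kerPoly (W l)`, the characteristic
polynomial of `F` on the kernel of `N`. The poles of `L_p(M, s)` (formed with `l`) are the `s` such that
`q ^ s` is a root `a` of `kerPoly (W l)`, those of `L_p(M', 1 - s)` are the `s` for which `q ^ (1 - s)` is a
root of `kerPoly (W' l)`. So a common pole is a root `a` of the first such that `q / a` is a root of the
second.

**Theorem.** Suppose that the characteristic polynomial of `F` on `W l` is one polynomial `P` with rational
coefficients (this is known if `M` has only one nonzero realisation degree, by the theorem of T. Saito on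
alternating sums of traces of correspondences). There is a monic polynomial `R` with rational coefficients,
equal to `P(X) / gcd(P(X), P(X / p))` up to a constant, such that for all `l ≠ p`:
(1) `R` divides `kerPoly (W l)`;
(2) `kerPoly (W l) = R` if and only if `L_p(M, s)` and `L_p(M', 1 - s)`, formed with `l`, have no common pole;
(3) there is no common pole if the sum of a weight of the inertia invariants of `M` and of a weight of the
inertia invariants of `M'` is always less than `2`, and also if `W l` satisfies the weight-monodromy
conjecture;
(4) if there is no common pole for one `l`, then the Euler factor is rational and independent of `l` if and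
only if there is no common pole for all `l`.

The proof: for every `a` the operator `N` maps the generalized eigenspace of `F` for `a` to that for `a / q`, and
it is surjective if and only if the dual operator is injective on the generalized eigenspace for `q / a`. So there
is no common pole if and only if `N` has the maximal possible rank between all pairs of generalized eigenspaces,
and this is the case if and only if its kernel has the smallest possible characteristic polynomial.
-/

set_option autoImplicit false

universe u

namespace Pool.Agent.Results.MP_a3c811_ag.CommonPoles

open Module Polynomial Pool.Agent.X268.WM Pool.Agent.X305.WM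

/-- **Local Euler factors of motives and common poles.** -/
theorem result {q : ℕ} (hq : 1 < q) {Λ : Type} (Ω : Λ → Type) [∀ l, Field (Ω l)]
    [∀ l, CharZero (Ω l)] [∀ l, IsAlgClosed (Ω l)] (W W' : ∀ l, FN.{u} (Ω l) q)
    -- `W' l` is the dual of `W l`
    (hdual : ∀ l, DualPair (W' l) (W l)) (P : ℚ[X]) (hPm : P.Monic)
    -- the characteristic polynomial of Frobenius is rational and independent of `l`
    (hP : ∀ l, (W l).F.charpoly = P.map (algebraMap ℚ (Ω l))) :
    ∃ R : ℚ[X], R.Monic ∧ Associated R (reducedPoly q P) ∧
      (∀ l, R.map (algebraMap ℚ (Ω l)) ∣ kerPoly (W l)) ∧
      (∀ l, kerPoly (W l) = R.map (algebraMap ℚ (Ω l)) ↔ NoCommonPole (W' l) (W l)) ∧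
      (∀ l, (SmallWeights (W' l) (W l) ∨ ∃ i, WeightMonodromy (W l) i) →
        NoCommonPole (W' l) (W l)) ∧
      ((∃ l, NoCommonPole (W' l) (W l)) →
        ((∃ K : ℚ[X], ∀ l, kerPoly (W l) = K.map (algebraMap ℚ (Ω l))) ↔
          ∀ l, NoCommonPole (W' l) (W l))) := by
  obtain ⟨R, h1, h2, h3, h4⟩ := common_poles hq Ω W W' hdual P hPm hP
  refine ⟨R, h1, h2, h3, h4, fun l h => ?_, fun ⟨l₀, h₀⟩ => ⟨?_, fun h => ⟨R, fun l => (h4 l).2 (h l)⟩⟩⟩
  · rcases h with h | ⟨i, h⟩
    · exact noCommonPole_of_weights hq h
    · exact noCommonPole_of_monodromy hq (hdual l) h
  · rintro ⟨K, hK⟩ l
    have h5 : K = R := by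
      apply Polynomial.map_injective (algebraMap ℚ (Ω l₀)) (algebraMap ℚ (Ω l₀)).injective
      rw [← hK l₀, (h4 l₀).2 h₀]
    rw [← h4, hK l, h5]

end Pool.Agent.Results.MP_a3c811_ag.CommonPoles
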