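import Pool.Agent.X310.WdQ

/-!
# `MP_a3c811_ag`: independence of `ℓ` for local Euler factors of motives

Fix a prime `p`.  For a class of motives stable under Tate twists and tensor products with a few
motives of curves and number fields the following are equivalent:

* for all motives the Euler factor at `p` in degree `0` has rational coefficients and is
  independent of `ℓ`;
* the same in all degrees;
* in all degrees the trace of each element of the Weil group on the kernel of each power of the
  monodromy operator is a rational number independent of `ℓ`.
-/

set_option autoImplicit false

namespace Pool.Agent.Results.MP_a3c811_ag.DegreeZeroSuffices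

open Pool.Agent.X310.WD

theorem result {W : Type} [Group W] [TopologicalSpace W] [IsTopologicalGroup W] (G : WeilData W)
    {Λ : Type} {K : Λ → Type} [∀ l, Field (K l)] [∀ l, CharZero (K l)] (S : MotiveClass G Λ K) :
    List.TFAE [
      ∀ M, RationalFactors fun l => S.V M 0 l,
      ∀ M i, RationalFactors fun l => S.V M i l,
      ∀ M i, RationalTraces fun l => S.V M i l] :=
  motive_main S

end Pool.Agent.Results.MP_a3c811_ag.DegreeZeroSuffices
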