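import Pool.Agent.X305.WM.Ad

/-!
# Local Euler factors of `M ⊗ M'` and weight-monodromy

Let `M` be a Chow motive over `ℚ` with only one nonzero realisation degree, `M'` its dual motive, and `p` a prime
(`q = p`) where the inertia group acts unipotently on the realisations `W l`, `l ≠ p`, of `M` (coefficients
extended to an algebraic closure `Ω l`). Let `F` be a geometric Frobenius element and `N` the monodromy operator.
The realisation `A l` of `M ⊗ M'` is the space of the endomorphisms of `W l` (`IsEndOf`), and the Euler
polynomials of `M` and `M ⊗ M'` are the reciprocal polynomials of `kerPoly (W l)`, `kerPoly (A l)`, the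
characteristic polynomials of `F` on the kernels of `N`.

**Theorem.** Suppose that the characteristic polynomials of `F` on `W l` and on `A l` are polynomials with
rational coefficients independent of `l` (this is known, by the theorem of T. Saito on alternating sums of traces
of correspondences), and that the weight-monodromy conjecture holds for `W l`, the realisation of `M`, for one
prime `l`. Then:
(1) for each `l` it holds for `W l` if and only if `L_p (M ⊗ M', s)`, formed with `l`, has no pole at
`s = 1`;
(2) the Euler factor of `M ⊗ M'` at `p` is rational and independent of `l` if and only if the weight-monodromy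
conjecture holds for `W l` for all `l`;
(3) in this case the Euler factor of `M` at `p` is also rational and independent of `l`.

So the weight-monodromy conjecture for one prime `l`, together with the independence of `l` of the local Euler
factors of all motives, implies the weight-monodromy conjecture for all primes `l`.

The proof: a nonzero homomorphism of `W l` to `W l (1)` gives a pole at `s = 1`. If there are no
such homomorphisms the decomposition of `W l` into chains of generalized eigenvectors is determined by the
characteristic polynomial (`MP_d037d4_ag.NoTwistedEndomorphisms`), so that `W l` is pure as soon as one `W l` is.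
If `W l` is pure then the weights of the kernel of `N` on `A l` are not positive, so that the
factors of `M ⊗ M'` and of its dual (again `M ⊗ M'`) have no common pole, and the criterion
`MP_a3c811_ag.CommonPoles` applies.
-/

set_option autoImplicit false

universe u

namespace Pool.Agent.Results.MP_a3c811_ag.EndomorphismFactors

open Module Polynomial Pool.Agent.X268.WM Pool.Agent.X305.WM

/-- **Local Euler factors of `M ⊗ M'` and weight-monodromy.** -/
theorem result {q : ℕ} (hq : 1 < q) (m : ℕ) {Λ : Type} (Ω : Λ → Type) [∀ l, Field (Ω l)]
    [∀ l, CharZero (Ω l)] [∀ l, IsAlgClosed (Ω l)] (W A : ∀ l, FN.{u} (Ω l) q)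
    -- `A l` is the space of the endomorphisms of `W l`
    (hA : ∀ l, IsEndOf (A l) (W l))
    -- the eigenvalues of Frobenius are Weil numbers of some weights
    (hmix : ∀ l, (W l).IsMixed)
    -- the characteristic polynomials of Frobenius are rational and independent of `l`
    (hP : OneCharpoly Ω W) (hPA : OneCharpoly Ω A)
    -- weight-monodromy for one `l`
    (h1 : ∃ l, (W l).IsPure m) :
    (∀ l, (W l).IsPure m ↔ NoPoleAtOne (A l)) ∧
      (OneKerPoly Ω A ↔ ∀ l, (W l).IsPure m) ∧
      ((∀ l, (W l).IsPure m) → OneKerPoly Ω W) := by
  obtain ⟨P, hP⟩ := hP
  obtain ⟨PA, hPA⟩ := hPA
  exact endomorphism_factors hq m Ω W A hA hmix P PA hP hPA h1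

end Pool.Agent.Results.MP_a3c811_ag.EndomorphismFactors
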