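import Pool.Agent.X310.WdY

/-!
# `MP_a3c811_ag`: independence of `ℓ` for motives cut out by automorphisms of finite order

Fix a prime `p`.  For a class of smooth projective varieties over `ℚ` with groups of automorphisms,
stable under twisted forms, the following are equivalent:

* for all varieties `X` of the class and all degrees `i` the Euler factor at `p` of `H ^ i (X)` has
  rational coefficients and is independent of `ℓ`;
* for all `X`, `i`, all automorphisms `a` of finite order and all `w` in the Weil group the trace
  of `w a` on the kernel of the monodromy operator is a rational number independent of `ℓ`;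
* for all `X`, `i` and all rational linear combinations `e` of automorphisms of finite order which
  act on `H ^ i (X)` as projectors, the Euler factor at `p` of `e H ^ i (X)` has rational
  coefficients and is independent of `ℓ`.
-/

set_option autoImplicit false

namespace Pool.Agent.Results.MP_a3c811_ag.FiniteGroupProjectors

open Pool.Agent.X310.WD

theorem result {W : Type} [Group W] [TopologicalSpace W] [IsTopologicalGroup W] (G : WeilData W)
    {Λ : Type} {K : Λ → Type} [∀ l, Field (K l)] [∀ l, CharZero (K l)]
    (S : EquivariantClass G Λ K) :
    List.TFAE [
      ∀ X i, RationalFactors fun l => S.H X i l,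
      ∀ X i (a : S.Aut X), IsOfFinOrder a → S.RationalKerTraces X i a,
      ∀ X i (e : S.Aut X →₀ ℚ), (∀ a ∈ e.support, IsOfFinOrder a) →
        (∀ l, (S.act X i l).IsProj e) → S.RationalMotive X i e] :=
  equivariant_main S

end Pool.Agent.Results.MP_a3c811_ag.FiniteGroupProjectors
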